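import Pool.Agent.BKW.Stmts

/-!
# Squad BKW, row BAK
-/

set_option autoImplicit false

namespace Pool.Agent.BKW.H68

open Finset Real Pool.Agent.BKW

theorem mon_fact {N L : ℕ} (a : Fin N → ℕ) (a0 : ℕ) (ha : ∀ j, (a j).Prime) (ha0 : a0.Prime)
    (u : Ix N L) (q : ℕ) : (mon a a0 u).factorization q =
      ∑ j, (if a j = q then (u.1 j : ℕ) else 0) + (if a0 = q then (u.2 : ℕ) else 0) := by
  unfold mon
  have h1 : ∀ j, a j ^ (u.1 j : ℕ) ≠ 0 := fun j => pow_ne_zero _ (ha j).ne_zero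
  have h2 : a0 ^ (u.2 : ℕ) ≠ 0 := pow_ne_zero _ ha0.ne_zero
  rw [Nat.factorization_mul (prod_ne_zero_iff.mpr fun j _ => h1 j) h2,
    Nat.factorization_prod (fun j _ => h1 j), Finsupp.add_apply, Finsupp.finsetSum_apply,
    ha0.factorization_pow, Finsupp.single_apply]
  congr 1
  refine sum_congr rfl fun j _ => ?_
  rw [(ha j).factorization_pow, Finsupp.single_apply]

theorem mon_inj {N L : ℕ} (a : Fin N → ℕ) (a0 : ℕ) (hinj : Function.Injective a)
    (ha : ∀ j, (a j).Prime) (ha0 : a0.Prime) (hne : ∀ j, a j ≠ a0) :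
    Function.Injective (mon a a0 : Ix N L → ℕ) := by
  intro u v huv
  have h1 : ∀ q, (mon a a0 u).factorization q = (mon a a0 v).factorization q := by
    intro q; rw [huv]
  simp only [mon_fact a a0 ha ha0] at h1
  have h2 : ∀ w : Ix N L, ∀ j, ∑ i, (if a i = a j then (w.1 i : ℕ) else 0) = (w.1 j : ℕ) := by
    intro w j
    rw [sum_eq_single j]
    · rw [if_pos rfl]
    · intro i _ hij
      rw [if_neg fun h => hij (hinj h)]
    · intro h
      exact absurd (mem_univ j) h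
  refine Prod.ext ?_ ?_
  · funext j
    have h3 := h1 (a j)
    rw [h2 u j, h2 v j, if_neg fun h => hne j h.symm, if_neg fun h => hne j h.symm, add_zero,
      add_zero] at h3
    exact Fin.ext h3
  · have h3 := h1 a0
    have h4 : ∀ w : Ix N L, ∑ i, (if a i = a0 then (w.1 i : ℕ) else 0) = 0 := by
      intro w
      refine sum_eq_zero fun i _ => ?_
      rw [if_neg (hne i)]
    rw [h4 u, h4 v, if_pos rfl, if_pos rfl, zero_add, zero_add] at h3
    exact Fin.ext h3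

/-- the core, with abstract parameters -/
theorem core (hsig : SigStmt) (hstp : StpStmt) (hvdm : Pool.Agent.DIO.VdmStatement)
    (N B P K n : ℕ) (a : Fin N → ℕ) (a0 : ℕ) (b : Fin N → ℤ) (b0 : ℤ) (l : ℝ)
    (hd : Dat N a a0 b b0 l B) (hinj : Function.Injective a) (ha : ∀ j, (a j).Prime)
    (ha0 : a0.Prime) (hne : ∀ j, a j ≠ a0) (hn : N + 1 = n) (hK1 : K + 1 = 2 * n ^ 2)
    (hPpos : 0 < P) (lam : ℝ) (hlam : |Lam a a0 b b0| ≤ exp (-lam))
    (hcount : 2 * (P * (2 ^ K * P ^ (2 * n + 2) + 1) ^ N) ≤ (P ^ (2 * n)) ^ (N + 1))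
    (hineq : ∀ k : ℕ, k < K →
      StpIneq N (P ^ (2 * n)) (2 ^ K * P ^ (2 * n + 2)) (2 ^ (K - k - 1) * P ^ (2 * n + 2))
        (P ^ (k + 1)) (P ^ (k + 2)) B l
        (((N : ℝ) + 1) * log ((P ^ (2 * n) : ℕ) : ℝ) +
          ((2 ^ K * P ^ (2 * n + 2) : ℕ) : ℝ) * log (2 * B * ((P ^ (2 * n) : ℕ) : ℝ)) +
          ((N : ℝ) + 1) * ((P ^ (2 * n) : ℕ) : ℝ) * l * (P : ℝ)) lam) : False := by
  have hL1 : 1 ≤ P ^ (2 * n) := Nat.one_le_pow _ _ hPpos
  obtain ⟨p, hp0, hpb, hz⟩ := hsig N (P ^ (2 * n)) (2 ^ K * P ^ (2 * n + 2)) P B a a0 b b0 l hd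
    hL1 hPpos hcount
  have hind : ∀ k : ℕ, k ≤ K → Zer a a0 b b0 p (2 ^ (K - k) * P ^ (2 * n + 2)) (P ^ (k + 1)) := by
    intro k
    induction k with
    | zero =>
      intro _
      rw [Nat.sub_zero, zero_add, pow_one]
      exact hz
    | succ k ih =>
      intro hk
      have ih' := ih (by omega)
      have h1 : 2 ^ (K - k) * P ^ (2 * n + 2) =
          2 ^ (K - k - 1) * P ^ (2 * n + 2) + 2 ^ (K - k - 1) * P ^ (2 * n + 2) := by
        have h2 : 2 ^ (K - k) = 2 ^ (K - k - 1) * 2 := by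
          rw [← pow_succ]
          congr 1
          omega
        rw [h2]
        ring
      rw [h1] at ih'
      have h3 : K - (k + 1) = K - k - 1 := by omega
      rw [h3]
      refine hstp N (P ^ (2 * n)) (2 ^ K * P ^ (2 * n + 2)) (2 ^ (K - k - 1) * P ^ (2 * n + 2))
        (2 ^ (K - k - 1) * P ^ (2 * n + 2)) (P ^ (k + 1)) (P ^ (k + 1 + 1)) B a a0 b b0 l _ _ p hd
        hL1 ?_ ?_ ?_ ?_ hpb hlam (hineq k (by omega)) ih'
      · exact Nat.one_le_iff_ne_zero.mpr (by positivity)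
      · exact Nat.one_le_pow _ _ hPpos
      · exact Nat.pow_le_pow_right hPpos (by omega)
      · rw [← h1]
        exact Nat.mul_le_mul_right _ (Nat.pow_le_pow_right (by norm_num) (by omega))
  have hfin := hind K le_rfl
  apply hp0
  have hcard : Fintype.card (Ix N (P ^ (2 * n))) = P ^ (K + 1) := by
    rw [Fintype.card_prod, Fintype.card_fun, Fintype.card_fin, Fintype.card_fin, ← pow_succ,
      ← pow_mul, hK1, hn]
    congr 1
    ring
  refine hvdm (Ix N (P ^ (2 * n))) (fun u => ((mon a a0 u : ℕ) : ℝ)) p ?_ ?_ ?_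
  · intro u v huv
    exact mon_inj a a0 hinj ha ha0 hne (Nat.cast_injective huv)
  · intro u
    have h1 : mon a a0 u ≠ 0 := by
      unfold mon
      exact mul_ne_zero (prod_ne_zero_iff.mpr fun j _ => pow_ne_zero _ (ha j).ne_zero)
        (pow_ne_zero _ ha0.ne_zero)
    exact_mod_cast h1
  · intro s hs1 hs2
    have h1 := hfin 0 (by simp) s hs1 (by rw [← hcard]; exact hs2)
    unfold FF at h1
    simp only [Pi.zero_apply, pow_zero, prod_const_one, mul_one] at h1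
    have h2 : ((∑ u : Ix N (P ^ (2 * n)), p u * ((mon a a0 u : ℕ) : ℤ) ^ s : ℤ) : ℝ) = 0 := by
      rw [h1, Int.cast_zero]
    push_cast at h2
    exact h2

theorem bak (hsig : SigStmt) (hstp : StpStmt) (hpar : ParStmt)
    (hvdm : Pool.Agent.DIO.VdmStatement) : BakStmt := by
  intro N B a a0 b b0 l hN hd hinj ha ha0 hne hLam
  by_contra hcon
  push Not at hcon
  have hl := hd.l1
  have hpar' := hpar N
  obtain ⟨n, hn⟩ : ∃ n, N + 1 = n := ⟨_, rfl⟩
  have hpow : ∀ x : ℕ, x ^ (N + 1) = x ^ n := by intro x; rw [hn]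
  rw [hn] at hcon
  have hlam : |Lam a a0 b b0| ≤ exp (-(((B : ℝ) - 1) * log 2)) := by
    refine hLam.trans (le_of_eq ?_)
    have h1 : -(((B : ℝ) - 1) * log 2) = log 2 - B * log 2 := by ring
    rw [h1, Real.exp_sub, Real.exp_log (by norm_num), ← Real.log_pow,
      Real.exp_log (by positivity)]
  rw [hn] at hpar'
  obtain ⟨K, hK⟩ : ∃ K, 2 * n ^ 2 - 1 = K := ⟨_, rfl⟩
  rw [hK] at hpar'
  have hn1 : 1 ≤ n := by omega
  have hK1 : K + 1 = 2 * n ^ 2 := by
    have h1 : 1 ≤ n ^ 2 := Nat.one_le_pow _ _ hn1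
    omega
  obtain ⟨e, he⟩ : ∃ e, 16 * n ^ 2 = e := ⟨_, rfl⟩
  have he0 : e ≠ 0 := by
    have h1 : 1 ≤ n ^ 2 := Nat.one_le_pow _ _ hn1
    omega
  obtain ⟨A, hA⟩ : ∃ A : ℝ, (2 : ℝ) ^ (20 * n ^ 3) = A := ⟨_, rfl⟩
  have hA1 : (1 : ℝ) ≤ A := by rw [← hA]; exact one_le_pow₀ (by norm_num)
  rw [he, hA] at hcon hpar'
  have hAl : (1 : ℝ) ≤ A * l := by nlinarith
  obtain ⟨r, hr0, hr⟩ : ∃ r : ℝ, 0 ≤ r ∧ r ^ e = (B : ℝ) := by
    refine ⟨(B : ℝ) ^ (((e : ℕ) : ℝ))⁻¹, Real.rpow_nonneg (Nat.cast_nonneg B) _, ?_⟩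
    exact Real.rpow_inv_natCast_pow (Nat.cast_nonneg B) he0
  have hrA : A * l + 2 < r := by
    by_contra hle
    push Not at hle
    have h1 : r ^ e ≤ (A * l + 2) ^ e := pow_le_pow_left₀ hr0 hle _
    rw [hr] at h1
    linarith
  obtain ⟨P, hPdef⟩ : ∃ P : ℕ, P = ⌊r⌋₊ := ⟨_, rfl⟩
  have hPr : (P : ℝ) ≤ r := by rw [hPdef]; exact Nat.floor_le hr0
  have hrP : r < (P : ℝ) + 1 := by rw [hPdef]; exact Nat.lt_floor_add_one r
  have hPl : A * l ≤ P := by linarith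
  have hPpos : 0 < P := by
    have : (0 : ℝ) < P := by linarith
    exact_mod_cast this
  have hBl : P ^ e ≤ B := by
    have : (P : ℝ) ^ e ≤ B := by
      rw [← hr]; exact pow_le_pow_left₀ (Nat.cast_nonneg P) hPr _
    exact_mod_cast this
  have hBu : B ≤ (P + 1) ^ e := by
    have : (B : ℝ) ≤ ((P : ℝ) + 1) ^ e := by
      rw [← hr]; exact pow_le_pow_left₀ hr0 hrP.le _
    exact_mod_cast this
  obtain ⟨hcount, hineq⟩ := hpar' P B l hN hl hPl hBl hBu
  exact core hsig hstp hvdm N B P K n a a0 b b0 l hd hinj ha ha0 hne hn hK1 hPpos _ hlam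
    (by rw [hpow]; exact hcount) hineq

end Pool.Agent.BKW.H68
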