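import Pool.Agent.BKW.Stmts

/-!
# Squad BKW, rows SQP and OMG
-/

set_option autoImplicit false

namespace Pool.Agent.BKW.H68

open Finset Pool.Agent.BKW

theorem sqp : SqpStmt := by
  intro x y hy
  have hsub : {n : ℕ | 1 ≤ n ∧ n ≤ x ∧ ∃ p : ℕ, y < p ∧ p ^ 2 ∣ n} ⊆
      ((Ioc y x).biUnion fun p => (Ioc 0 x).filter fun n => p ^ 2 ∣ n : Finset ℕ) := by
    rintro n ⟨h1, h2, p, hp, hd⟩
    have hle : p ^ 2 ≤ n := Nat.le_of_dvd (by omega) hd
    have hp2 : p ≤ p ^ 2 := Nat.le_self_pow (by norm_num) p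
    simp only [coe_biUnion, Set.mem_iUnion, mem_coe, mem_Ioc, coe_filter, Set.mem_ofPred_eq]
    exact ⟨p, ⟨hp, by omega⟩, ⟨by omega, h2⟩, hd⟩
  have h1 := Set.ncard_le_ncard hsub (Finset.finite_toSet _)
  rw [Set.ncard_coe_finset] at h1
  have h2 := h1.trans card_biUnion_le
  have h3 : (({n : ℕ | 1 ≤ n ∧ n ≤ x ∧ ∃ p : ℕ, y < p ∧ p ^ 2 ∣ n}.ncard : ℕ) : ℝ) ≤
      ((∑ p ∈ Ioc y x, ((Ioc 0 x).filter fun n => p ^ 2 ∣ n).card : ℕ) : ℝ) := by
    exact_mod_cast h2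
  refine h3.trans ?_
  have h4 : ((∑ p ∈ Ioc y x, ((Ioc 0 x).filter fun n => p ^ 2 ∣ n).card : ℕ) : ℝ) ≤
      ∑ p ∈ Ioc y x, (x : ℝ) * ((p : ℝ) ^ 2)⁻¹ := by
    push_cast
    refine sum_le_sum fun p _ => ?_
    rw [Nat.Ioc_filter_dvd_card_eq_div]
    refine Nat.cast_div_le.trans ?_
    push_cast
    rw [div_eq_mul_inv]
  refine h4.trans ?_
  rw [← mul_sum, div_eq_mul_inv]
  refine mul_le_mul_of_nonneg_left ?_ (Nat.cast_nonneg x)
  rcases le_or_gt y x with hyx | hyx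
  · refine (sum_Ioc_inv_sq_le_sub (α := ℝ) (by omega) hyx).trans ?_
    have : (0 : ℝ) ≤ (x : ℝ)⁻¹ := by positivity
    linarith
  · rw [Ioc_eq_empty (by omega), sum_empty]
    positivity

theorem two_pow_le {n : ℕ} (hn : n ≠ 0) : 2 ^ n.primeFactors.card ≤ n.divisors.card := by
  rw [Nat.card_divisors hn, ← prod_const]
  refine prod_le_prod' fun p hp => ?_
  have := (Nat.mem_primeFactors.mp hp)
  have h1 := this.1.factorization_pos_of_dvd hn this.2.1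
  omega

theorem sum_div (x : ℕ) : ∑ n ∈ Ioc 0 x, n.divisors.card = ∑ d ∈ Ioc 0 x, x / d := by
  have h1 : ∀ n ∈ Ioc 0 x, n.divisors.card = ∑ d ∈ Ioc 0 x, if d ∣ n then 1 else 0 := by
    intro n hn
    rw [mem_Ioc] at hn
    rw [← card_filter]
    congr 1
    ext d
    rw [Nat.mem_divisors, mem_filter, mem_Ioc]
    constructor
    · rintro ⟨h, _⟩
      have := Nat.le_of_dvd hn.1 h
      have := Nat.pos_of_dvd_of_pos h hn.1
      exact ⟨⟨by omega, by omega⟩, h⟩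
    · rintro ⟨_, h⟩
      exact ⟨h, by omega⟩
  rw [sum_congr rfl h1, sum_comm]
  refine sum_congr rfl fun d _ => ?_
  rw [← card_filter, Nat.Ioc_filter_dvd_card_eq_div]

theorem omg : OmgStmt := by
  intro x r hx
  classical
  have hset : {n : ℕ | 1 ≤ n ∧ n ≤ x ∧ r < n.primeFactors.card} =
      ((Ioc 0 x).filter fun n => r < n.primeFactors.card : Finset ℕ) := by
    ext n
    simp only [Set.mem_ofPred_eq, coe_filter, mem_Ioc]
    constructor
    · rintro ⟨h1, h2, h3⟩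
      exact ⟨⟨by omega, h2⟩, h3⟩
    · rintro ⟨⟨h1, h2⟩, h3⟩
      exact ⟨by omega, h2, h3⟩
  rw [hset, Set.ncard_coe_finset]
  have h1 : ((Ioc 0 x).filter fun n => r < n.primeFactors.card).card * 2 ^ r ≤
      ∑ d ∈ Ioc 0 x, x / d := by
    rw [← sum_div, ← smul_eq_mul, ← sum_const]
    refine (sum_le_sum fun n hn => ?_).trans (sum_le_sum_of_subset (filter_subset _ _))
    rw [mem_filter, mem_Ioc] at hn
    refine le_trans ?_ (two_pow_le (by omega : n ≠ 0))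
    exact Nat.pow_le_pow_right (by norm_num) hn.2.le
  have h2 : ((((Ioc 0 x).filter fun n => r < n.primeFactors.card).card : ℕ) : ℝ) * 2 ^ r ≤
      ((∑ d ∈ Ioc 0 x, x / d : ℕ) : ℝ) := by exact_mod_cast h1
  refine h2.trans ?_
  have h3 : ((∑ d ∈ Ioc 0 x, x / d : ℕ) : ℝ) ≤ (x : ℝ) * ∑ d ∈ Ioc 0 x, ((d : ℝ))⁻¹ := by
    push_cast
    rw [mul_sum]
    refine sum_le_sum fun d _ => ?_
    refine Nat.cast_div_le.trans ?_
    rw [div_eq_mul_inv]
  refine h3.trans (mul_le_mul_of_nonneg_left ?_ (Nat.cast_nonneg x))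
  have h4 := harmonic_le_one_add_log x
  have h5 : ((harmonic x : ℚ) : ℝ) = ∑ d ∈ Ioc 0 x, ((d : ℝ))⁻¹ := by
    rw [harmonic_eq_sum_Icc]
    push_cast
    rfl
  rw [← h5]
  exact h4

end Pool.Agent.BKW.H68
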